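import Mathlib

set_option autoImplicit false

namespace Pool.Agent.Results.MP_ff0133_co.Yes

/-- straight-line plane drawing of the underlying graph of the digraph `E` -/
def Planar {V : Type} (E : V → V → Prop) : Prop :=
  ∃ p : V → ℝ × ℝ, Function.Injective p ∧
    (∀ u v w, E u v → p w ∈ segment ℝ (p u) (p v) → w = u ∨ w = v) ∧
    ∀ u v x y z, E u v → E x y → s(u, v) ≠ s(x, y) → z ∈ segment ℝ (p u) (p v) →
      z ∈ segment ℝ (p x) (p y) → ∃ w, (w = u ∨ w = v) ∧ (w = x ∨ w = y) ∧ z = p w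

/-- `S` induces no directed cycle (no closed directed walk of positive length inside `S`) -/
def Acyclic {V : Type} (E : V → V → Prop) (S : Set V) : Prop :=
  ∀ v, ¬ Relation.TransGen (fun a b => a ∈ S ∧ b ∈ S ∧ E a b) v v

/-- acyclic `(k,d)`-colouring -/
def IsAcyclicColouring {V : Type} (E : V → V → Prop) (k d : ℕ) (c : V → ZMod k) : Prop :=
  ∀ i : ZMod k, Acyclic E {v | ∃ j : ℕ, j < d ∧ c v = i + (j : ZMod k)}

/-- `g` is the length of a shortest directed cycle -/
def Digirth {V : Type} (E : V → V → Prop) (g : ℕ) : Prop :=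
  IsLeast {n : ℕ | 0 < n ∧ ∃ f : ZMod n → V, Function.Injective f ∧ ∀ i, E (f i) (f (i + 1))} g

def arcs : List (Fin 17 × Fin 17) :=
  [(1, 2), (2, 3), (3, 4), (4, 1), (5, 6), (6, 7), (7, 1), (7, 0), (1, 5), (0, 5), (8, 9), (9, 10), (10, 2), (10, 0), (2, 8), (0, 8), (11, 12), (12, 13), (13, 3), (13, 0), (3, 11), (0, 11), (14, 15), (15, 16), (16, 4), (16, 0), (4, 14), (0, 14)]

def E (u v : Fin 17) : Prop := (u, v) ∈ arcs

instance : DecidableRel E := fun u v => inferInstanceAs (Decidable ((u, v) ∈ arcs))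

def q : Fin 17 → ℤ × ℤ :=
  ![(-1, 2), (38, 0), (-2, 41), (-39, 1), (1, -41), (18, 9), (18, 1), (21, -6), (-10, 21), (0, 19), (10, 18), (-20, -10), (-22, -2), (-18, 6), (9, -21), (1, -22), (-6, -21)]

def crZ (a b c : ℤ × ℤ) : ℤ := (b.1 - a.1) * (c.2 - a.2) - (b.2 - a.2) * (c.1 - a.1)

def crR (a b c : ℝ × ℝ) : ℝ := (b.1 - a.1) * (c.2 - a.2) - (b.2 - a.2) * (c.1 - a.1)

def pt (v : Fin 17) : ℝ × ℝ := (((q v).1 : ℝ), ((q v).2 : ℝ))

theorem cast_cr (a b c : Fin 17) : crR (pt a) (pt b) (pt c) = (crZ (q a) (q b) (q c) : ℝ) := by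
  simp [crR, crZ, pt]

theorem gen : ∀ u v w : Fin 17, E u v → w ≠ u → w ≠ v → crZ (q u) (q v) (q w) ≠ 0 := by
  decide +kernel

theorem sep : ∀ u v x y : Fin 17, E u v → E x y → x ≠ u → x ≠ v → y ≠ u → y ≠ v →
    0 < crZ (q u) (q v) (q x) * crZ (q u) (q v) (q y) ∨
      0 < crZ (q x) (q y) (q u) * crZ (q x) (q y) (q v) := by
  decide +kernel

theorem qinj : ∀ u v : Fin 17, q u = q v → u = v := by decide +kernel

theorem irr : ∀ u v : Fin 17, E u v → ¬ E v u := by decide +kernel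

theorem seg (c d z : ℝ × ℝ) (h : z ∈ segment ℝ c d) : ∃ s t : ℝ, 0 ≤ s ∧ 0 ≤ t ∧ s + t = 1 ∧
    z = s • c + t • d ∧ ∀ a b, crR a b z = s * crR a b c + t * crR a b d := by
  obtain ⟨s, t, hs, ht, hst, rfl⟩ := h
  refine ⟨s, t, hs, ht, hst, rfl, fun a b => ?_⟩
  obtain rfl : t = 1 - s := by linarith
  simp only [crR, Prod.fst_add, Prod.snd_add, Prod.smul_fst, Prod.smul_snd, smul_eq_mul]
  ring

theorem cr_l (a b : ℝ × ℝ) : crR a b a = 0 := by simp [crR]
theorem cr_r (a b : ℝ × ℝ) : crR a b b = 0 := by simp only [crR]; ring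

theorem seg0 (a b z : ℝ × ℝ) (h : z ∈ segment ℝ a b) : crR a b z = 0 := by
  obtain ⟨s, t, -, -, -, -, h⟩ := seg a b z h
  rw [h, cr_l, cr_r]; ring

theorem nosep (a b c d z : ℝ × ℝ) (h1 : z ∈ segment ℝ a b) (h2 : z ∈ segment ℝ c d)
    (h : 0 < crR a b c * crR a b d) : False := by
  obtain ⟨s, t, hs, ht, hst, -, e⟩ := seg c d z h2
  have e0 := (seg0 a b z h1).symm.trans (e a b)
  have hA : crR a b c ≠ 0 := fun h0 => by rw [h0, zero_mul] at h; exact lt_irrefl _ h
  have hA2 : 0 < crR a b c * crR a b c := mul_self_pos.2 hA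
  have e1 : s * (crR a b c * crR a b c) + t * (crR a b c * crR a b d) = 0 := by
    have : s * (crR a b c * crR a b c) + t * (crR a b c * crR a b d)
      = crR a b c * (s * crR a b c + t * crR a b d) := by ring
    rw [this, ← e0, mul_zero]
  have p1 := mul_nonneg hs hA2.le
  have p2 := mul_nonneg ht h.le
  have hs0 : s = 0 := by
    rcases mul_eq_zero.1 (show s * (crR a b c * crR a b c) = 0 by linarith) with h | h
    · exact h
    · exact absurd h hA2.ne'
  have ht0 : t = 0 := by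
    rcases mul_eq_zero.1 (show t * (crR a b c * crR a b d) = 0 by linarith) with h' | h'
    · exact h'
    · exact absurd h' h.ne'
  linarith

theorem planar : Planar E := by
  refine ⟨pt, fun u v h => qinj u v ?_, fun u v w huv hw => ?_, fun u v x y z huv hxy hne h1 h2 => ?_⟩
  · simp only [pt, Prod.mk.injEq, Int.cast_inj] at h
    exact Prod.ext h.1 h.2
  · by_contra hc
    push Not at hc
    have := seg0 _ _ _ hw
    rw [cast_cr] at this
    exact gen u v w huv hc.1 hc.2 (by exact_mod_cast this)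
  · have hxy' : x ≠ y := fun h => by subst h; exact irr _ _ hxy hxy
    obtain ⟨s, t, hs, ht, hst, hz, e⟩ := seg _ _ z h2
    have e0 := (seg0 _ _ z h1).symm.trans (e (pt u) (pt v))
    have g : ∀ w, w ≠ u → w ≠ v → crR (pt u) (pt v) (pt w) ≠ 0 := fun w a b => by
      rw [cast_cr]; exact_mod_cast gen u v w huv a b
    have g0 : ∀ w, (w = u ∨ w = v) → crR (pt u) (pt v) (pt w) = 0 := fun w h => by
      rcases h with rfl | rfl
      exacts [cr_l _ _, cr_r _ _]
    by_cases hx : x = u ∨ x = v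
    · by_cases hy : y = u ∨ y = v
      · exfalso
        rcases hx with rfl | rfl <;> rcases hy with rfl | rfl
        exacts [hxy' rfl, hne rfl, hne Sym2.eq_swap, hxy' rfl]
      · rw [not_or] at hy
        rw [g0 x hx, mul_zero, zero_add] at e0
        have ht0 : t = 0 := (mul_eq_zero.1 e0.symm).resolve_right (g y hy.1 hy.2)
        have hs1 : s = 1 := by linarith
        exact ⟨x, hx, Or.inl rfl, by rw [hz, ht0, hs1]; simp⟩
    · rw [not_or] at hx
      by_cases hy : y = u ∨ y = v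
      · rw [g0 y hy, mul_zero, add_zero] at e0
        have hs0 : s = 0 := (mul_eq_zero.1 e0.symm).resolve_right (g x hx.1 hx.2)
        have ht1 : t = 1 := by linarith
        exact ⟨y, hy, Or.inr rfl, by rw [hz, hs0, ht1]; simp⟩
      · rw [not_or] at hy
        exfalso
        rcases sep u v x y huv hxy hx.1 hx.2 hy.1 hy.2 with h | h
        · exact nosep _ _ _ _ z h1 h2 (by rw [cast_cr, cast_cr]; exact_mod_cast h)
        · exact nosep _ _ _ _ z h2 h1 (by rw [cast_cr, cast_cr]; exact_mod_cast h)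

def col : Fin 17 → ZMod 3 := ![0, 0, 1, 2, 0, 0, 1, 2, 0, 1, 2, 0, 1, 2, 0, 1, 2]
def rk (i : ZMod 3) (v : Fin 17) : ℕ := (([[0, 1, 2, 0, 0, 2, 3, 0, 3, 4, 0, 1, 2, 0, 1, 2, 0], [0, 0, 2, 3, 0, 0, 0, 1, 0, 0, 1, 0, 0, 1, 0, 0, 1], [1, 3, 0, 1, 2, 4, 0, 0, 2, 0, 0, 2, 0, 0, 3, 0, 0]] : List (List ℕ)).getD i.val []).getD v.val 0

theorem rk_lt : ∀ (i : ZMod 3) (a b : Fin 17), E a b → (col a = i ∨ col a = i + 1) →
    (col b = i ∨ col b = i + 1) → rk i a < rk i b := by decide +kernel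

theorem upper : IsAcyclicColouring E 3 2 col := by
  intro i v h
  have m : ∀ a, a ∈ {v | ∃ j : ℕ, j < 2 ∧ col v = i + (j : ZMod 3)} → col a = i ∨ col a = i + 1 := by
    rintro a ⟨j, hj, ha⟩
    obtain rfl | rfl : j = 0 ∨ j = 1 := by omega
    · left; simpa using ha
    · right; simpa using ha
  have key : ∀ a b, Relation.TransGen (fun a b => a ∈ {v | ∃ j : ℕ, j < 2 ∧ col v = i + (j : ZMod 3)} ∧
      b ∈ {v | ∃ j : ℕ, j < 2 ∧ col v = i + (j : ZMod 3)} ∧ E a b) a b → rk i a < rk i b := by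
    intro a b h
    induction h with
    | single h => exact rk_lt i _ _ h.2.2 (m _ h.1) (m _ h.2.1)
    | tail _ h ih => exact ih.trans (rk_lt i _ _ h.2.2 (m _ h.1) (m _ h.2.1))
  exact lt_irrefl _ (key v v h)

def In (k d i w : ℕ) : Prop := (i ≤ w ∧ w < i + d) ∨ w + k < i + d

def No (k d i x y z w : ℕ) : Prop := ¬ (In k d i x ∧ In k d i y ∧ In k d i z ∧ In k d i w)

theorem quad {k d : ℕ} [NeZero k] {c : Fin 17 → ZMod k}
    (hc : IsAcyclicColouring E k d c) {x y z w : Fin 17} (h1 : E x y) (h2 : E y z) (h3 : E z w)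
    (h4 : E w x) (i : ℕ) (hi : i < k) : No k d i (c x).val (c y).val (c z).val (c w).val := by
  have mem : ∀ u : Fin 17, In k d i (c u).val →
      u ∈ {v | ∃ j : ℕ, j < d ∧ c v = (i : ZMod k) + (j : ZMod k)} := by
    intro u h
    rcases h with h | h
    · refine ⟨(c u).val - i, by omega, ?_⟩
      rw [Nat.cast_sub h.1, ZMod.natCast_zmod_val]; ring
    · refine ⟨(c u).val + k - i, by omega, ?_⟩
      rw [Nat.cast_sub (by omega), Nat.cast_add, ZMod.natCast_zmod_val, ZMod.natCast_self]; ring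
  rintro ⟨a, b, e, f⟩
  exact hc (i : ZMod k) x ((((Relation.TransGen.single ⟨mem x a, mem y b, h1⟩).tail
    ⟨mem y b, mem z e, h2⟩).tail ⟨mem z e, mem w f, h3⟩).tail ⟨mem w f, mem x a, h4⟩)

theorem near {k d : ℕ} (hk : 2 * k < 3 * d) (hd : d ≤ k) {u v a b c i : ℕ} (hu : u < k) (hv : v < k)
    (ha : a < k) (hb : b < k) (hc : c < k) (hi : i + (k - d) = v ∨ i + (k - d) = v + k) (hik : i < k)
    (h1 : ∀ i < k, No k d i u a b c) (h2 : ∀ i < k, No k d i v a b c) : In k d i u := by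
  have p1 := h1 u hu
  have p2 := h1 a ha
  have p3 := h1 b hb
  have p4 := h1 c hc
  have q1 := h2 v hv
  have q2 := h2 a ha
  have q3 := h2 b hb
  have q4 := h2 c hc
  clear h1 h2
  unfold No In at *
  rcases Nat.le_total a b with h | h <;> rcases Nat.le_total b c with h' | h' <;>
    rcases Nat.le_total a c with h'' | h'' <;> omega

theorem lower {k d : ℕ} [NeZero k] (hk : 2 * k < 3 * d) (hd : d ≤ k) {c : Fin 17 → ZMod k}
    (hc : IsAcyclicColouring E k d c) : False := by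
  have hv := ZMod.val_lt (c 0)
  obtain ⟨i, hik, hi⟩ : ∃ i, i < k ∧ (i + (k - d) = (c 0).val ∨ i + (k - d) = (c 0).val + k) := by
    by_cases h : k - d ≤ (c 0).val
    · exact ⟨(c 0).val - (k - d), by omega, by omega⟩
    · exact ⟨(c 0).val + d, by omega, by omega⟩
  have link : ∀ u a b e : Fin 17, E u a → E 0 a → E a b → E b e → E e u → E e 0 →
      In k d i (c u).val := fun u a b e e1 e2 e3 e4 e5 e6 =>
    near hk hd (ZMod.val_lt _) hv (ZMod.val_lt (c a)) (ZMod.val_lt (c b)) (ZMod.val_lt (c e)) hi hik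
      (quad hc e1 e3 e4 e5) (quad hc e2 e3 e4 e6)
  exact quad hc (x := 1) (y := 2) (z := 3) (w := 4) (by decide) (by decide) (by decide) (by decide) i hik
    ⟨link 1 5 6 7 (by decide) (by decide) (by decide) (by decide) (by decide) (by decide),
     link 2 8 9 10 (by decide) (by decide) (by decide) (by decide) (by decide) (by decide),
     link 3 11 12 13 (by decide) (by decide) (by decide) (by decide) (by decide) (by decide),
     link 4 14 15 16 (by decide) (by decide) (by decide) (by decide) (by decide) (by decide)⟩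

theorem notri : ∀ u v w : Fin 17, E u v → E v w → ¬ E w u := by decide +kernel

theorem girth : Digirth E 4 := by
  refine ⟨⟨by norm_num, fun i : Fin 4 => ![1, 2, 3, 4] i, by decide, by decide⟩, ?_⟩
  rintro n ⟨h0, f, -, hf⟩
  by_contra h
  obtain rfl | rfl | rfl : n = 1 ∨ n = 2 ∨ n = 3 := by omega
  · exact irr _ _ (hf 0) (hf 0)
  · exact irr _ _ (hf 0) (hf 1)
  · exact notri _ _ _ (hf 0) (hf 1) (hf 2)

theorem result : ∃ D : Fin 17 → Fin 17 → Prop, Planar D ∧ Digirth D 4 ∧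
    IsLeast {r : ℚ | ∃ k d : ℕ, 1 ≤ d ∧ d ≤ k ∧ r = (k : ℚ) / (d : ℚ) ∧
      ∃ c : Fin 17 → ZMod k, IsAcyclicColouring D k d c} (3 / 2) := by
  refine ⟨E, planar, girth, ⟨3, 2, by norm_num, by norm_num, by norm_num, col, upper⟩, ?_⟩
  rintro r ⟨k, d, h1, h2, rfl, c, hc⟩
  by_contra hlt
  have hd : (0 : ℚ) < d := by exact_mod_cast h1
  rw [not_le, div_lt_div_iff₀ hd (by norm_num)] at hlt
  have hk : k * 2 < 3 * d := by exact_mod_cast hlt
  have : NeZero k := ⟨by omega⟩
  exact lower (by omega) h2 hc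

end Pool.Agent.Results.MP_ff0133_co.Yes
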